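import Pool.Agent.Helper15.EP.St

set_option autoImplicit false

/-!
# Project EP, module KC2: a trivial character
-/

open Polynomial

namespace Pool.Agent.Helper91.EP

open Pool.Agent.Helper15.FC Pool.Agent.Helper15.EP

private theorem mod_dvd {F : Type} [Field F] (m f : F[X]) (hm : m.Monic) : m ∣ f %ₘ m - f := by
  refine ⟨-(f /ₘ m), ?_⟩
  have := Polynomial.modByMonic_add_div f m
  linear_combination this

private theorem mod_mem {F : Type} [Field F] [Fintype F] (m f : F[X]) (hm : m.Monic) :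
    f %ₘ m ∈ Lw F m.natDegree := by
  rw [mem_Lw, ← Polynomial.degree_eq_natDegree hm.ne_zero]
  exact Polynomial.degree_modByMonic_lt f hm

private theorem eq_of_dvd {F : Type} [Field F] [Fintype F] (m f g : F[X]) (hm : m.Monic)
    (hf : f ∈ Lw F m.natDegree) (hg : g ∈ Lw F m.natDegree) (h : m ∣ f - g) : f = g := by
  rw [mem_Lw, ← Polynomial.degree_eq_natDegree hm.ne_zero] at hf hg
  have h1 : (f - g).degree < m.degree :=
    lt_of_le_of_lt (Polynomial.degree_sub_le f g) (max_lt hf hg)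
  exact sub_eq_zero.1 (Polynomial.eq_zero_of_dvd_of_degree_lt h h1)

/-- the first variable is moved by a unit -/
private theorem key1 {F : Type} [Field F] [Fintype F] (m A t u : F[X]) (ν : AddChar F[X] ℂ)
    (hm : m.Monic) (hu : IsCoprime u m) : KS m A (u * t) 1 ν = KS m A t 1 ν := by
  classical
  unfold KS
  symm
  obtain ⟨a, b, hab⟩ := hu
  refine Finset.sum_bij' (fun p _ => ((u * p.1) %ₘ m, p.2)) (fun p _ => ((a * p.1) %ₘ m, p.2))
    ?_ ?_ ?_ ?_ ?_
  · intro p hp
    simp only [Finset.mem_filter, Finset.mem_product] at hp ⊢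
    refine ⟨⟨mod_mem m _ hm, hp.1.2⟩, ?_⟩
    obtain ⟨c, hc⟩ := mod_dvd m (u * p.1) hm
    obtain ⟨d, hd⟩ := hp.2
    refine ⟨A * p.2 * c + u * d, ?_⟩
    linear_combination (A * p.2) * hc + u * hd
  · intro p hp
    simp only [Finset.mem_filter, Finset.mem_product] at hp ⊢
    refine ⟨⟨mod_mem m _ hm, hp.1.2⟩, ?_⟩
    obtain ⟨c, hc⟩ := mod_dvd m (a * p.1) hm
    obtain ⟨d, hd⟩ := hp.2
    refine ⟨A * p.2 * c + a * d - b * t, ?_⟩
    linear_combination (A * p.2) * hc + a * hd + t * hab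
  · intro p hp
    simp only [Finset.mem_filter, Finset.mem_product] at hp
    refine Prod.ext ?_ rfl
    refine eq_of_dvd m _ _ hm (mod_mem m _ hm) hp.1.1 ?_
    obtain ⟨c, hc⟩ := mod_dvd m (a * ((u * p.1) %ₘ m)) hm
    obtain ⟨d, hd⟩ := mod_dvd m (u * p.1) hm
    refine ⟨c + a * d - b * p.1, ?_⟩
    show (a * ((u * p.1) %ₘ m)) %ₘ m - p.1 = _
    linear_combination hc + a * hd + p.1 * hab
  · intro p hp
    simp only [Finset.mem_filter, Finset.mem_product] at hp
    refine Prod.ext ?_ rfl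
    refine eq_of_dvd m _ _ hm (mod_mem m _ hm) hp.1.1 ?_
    obtain ⟨c, hc⟩ := mod_dvd m (u * ((a * p.1) %ₘ m)) hm
    obtain ⟨d, hd⟩ := mod_dvd m (a * p.1) hm
    refine ⟨c + u * d - b * p.1, ?_⟩
    show (u * ((a * p.1) %ₘ m)) %ₘ m - p.1 = _
    linear_combination hc + u * hd + p.1 * hab
  · intro p _
    simp

/-- symmetry of the sum -/
private theorem swap {F : Type} [Field F] [Fintype F] (m A t : F[X]) (ν1 ν2 : AddChar F[X] ℂ) :
    KS m A t ν1 ν2 = KS m A t ν2 ν1 := by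
  classical
  unfold KS
  refine Finset.sum_bij' (fun p _ => (p.2, p.1)) (fun p _ => (p.2, p.1)) ?_ ?_ ?_ ?_ ?_
  · intro p hp
    simp only [Finset.mem_filter, Finset.mem_product] at hp ⊢
    refine ⟨⟨hp.1.2, hp.1.1⟩, ?_⟩
    obtain ⟨c, hc⟩ := hp.2
    exact ⟨c, by linear_combination hc⟩
  · intro p hp
    simp only [Finset.mem_filter, Finset.mem_product] at hp ⊢
    refine ⟨⟨hp.1.2, hp.1.1⟩, ?_⟩
    obtain ⟨c, hc⟩ := hp.2
    exact ⟨c, by linear_combination hc⟩
  · intro p _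
    rfl
  · intro p _
    rfl
  · intro p _
    exact mul_comm _ _

theorem hKC2 : StKC2 := by
  intro F _ _ m A t u ν1 ν2 hm hu h
  rcases h with h | h
  · subst h
    exact key1 m A t u ν2 hm hu
  · subst h
    rw [swap m A (u * t) ν1 1, swap m A t ν1 1]
    exact key1 m A t u ν1 hm hu

end Pool.Agent.Helper91.EP
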