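import Pool.Agent.Helper61.EP.StC

/-!
# Project EP (MP_cb927e_an, helper61): module CYO, the young points
-/

set_option autoImplicit false

open MeasureTheory Set Filter Topology
open scoped ENNReal RealInnerProductSpace

namespace Pool.Agent.Helper91.EP

open Pool.Agent.Helper61.EP Pool.Agent.Helper20.RG Pool.Agent.Helper20.RL
open Pool.Agent.Helper68.LM (Pl BB Bd Av HL ft fm DQ)
open Pool.Agent.Helper68.EP (Fb DQ3)

theorem cyo_bb_ind {F : Set Pl} (hF : BM F) : BB (F.indicator 1) := by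
  obtain ⟨h1, h2⟩ := hF
  obtain ⟨r, hr⟩ := h2.subset_closedBall (0 : Pl)
  refine ⟨measurable_one.indicator h1, max 1 r, fun x => ?_, fun x hx => ?_⟩
  · by_cases hx : x ∈ F
    · rw [indicator_of_mem hx]
      simp
    · rw [indicator_of_notMem hx]
      simp
  · rw [indicator_of_notMem]
    intro hxF
    have h3 := hr hxF
    rw [Metric.mem_closedBall, dist_zero_right] at h3
    exact absurd (h3.trans (le_max_right _ _)) (not_le.2 hx)

theorem lin_le_rpow {a : ℝ} (ha : 0 < a) : ∃ N : ℕ, ∀ u : ℕ, N ≤ u → 2 * (u : ℝ) + 1 ≤ (2 : ℝ) ^ (a * u) := by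
  obtain ⟨b, hb⟩ : ∃ b : ℝ, b = a * Real.log 2 / 2 := ⟨_, rfl⟩
  have hb0 : 0 < b := by
    rw [hb]
    have := Real.log_pos (show (1 : ℝ) < 2 by norm_num)
    positivity
  refine ⟨⌈3 / b ^ 2⌉₊ + 1, fun u hu => ?_⟩
  have h1 : 3 / b ^ 2 ≤ (u : ℝ) := (Nat.le_ceil _).trans (by exact_mod_cast (by omega : ⌈3 / b ^ 2⌉₊ ≤ u))
  rw [div_le_iff₀ (by positivity)] at h1
  have hu1 : (1 : ℝ) ≤ u := by exact_mod_cast (by omega : 1 ≤ u)
  have h2 : (2 : ℝ) ^ (a * u) = Real.exp (b * u) * Real.exp (b * u) := by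
    rw [Real.rpow_def_of_pos (by norm_num), ← Real.exp_add]
    congr 1
    rw [hb]
    ring
  have h3 : b * u + 1 ≤ Real.exp (b * u) := Real.add_one_le_exp _
  have h4 : (b * u) * (b * u) ≤ Real.exp (b * u) * Real.exp (b * u) := by
    have h5 : b * u ≤ Real.exp (b * u) := by linarith
    exact mul_le_mul h5 h5 (by positivity) (Real.exp_pos _).le
  rw [h2]
  have h6 : 3 * (u : ℝ) ≤ (b * u) * (b * u) := by
    have h7 := mul_le_mul_of_nonneg_right h1 (show (0 : ℝ) ≤ u by linarith)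
    linarith
  linarith

/-- Module CYO. -/
theorem hCYO (hYB : Pool.Agent.Helper20.RG.StYB) (hLAM : Pool.Agent.Helper20.RL.StLAM) (hCFB : StCFB)
    (hCCS : StCCS) : StCYO := by
  intro A p s γ Cf ε hA hEx hCf hε hεp
  obtain ⟨u₁, e₃, C₁, e₁, he₃, hC₁, he₁, H⟩ := hCCS A p s γ Cf ε 1 hA hEx hCf hε one_pos
  obtain ⟨Na, hNa⟩ := lin_le_rpow (a := e₃ / 2) (by positivity)
  obtain ⟨Nb, hNb⟩ := lin_le_rpow (a := e₁ / 2) (by positivity)
  obtain ⟨hs1, hsp, hp2, -, -, -⟩ := hEx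
  refine ⟨u₁ + Na + Nb, e₃ / 2, 4 * C₁, e₁ / 2, by positivity, by positivity, by positivity, ?_⟩
  intro u q sl c m E hu hSlo hj hq hE
  have hu0 : (0 : ℝ) ≤ (u : ℝ) := Nat.cast_nonneg _
  obtain ⟨D, hD⟩ : ∃ D : ℝ, D = (2 : ℝ) ^ (-(s * u)) := ⟨_, rfl⟩
  have hDpos : 0 < D := by rw [hD]; exact Real.rpow_pos_of_pos (by norm_num) _
  rw [← hD]
  have hq2 : (q : ℝ) + 1 ≤ 2 * u + 1 := by
    have : (p - ε) * u ≤ 2 * u := mul_le_mul_of_nonneg_right (by linarith) hu0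
    linarith
  have hqa : (q : ℝ) + 1 ≤ (2 : ℝ) ^ (e₃ / 2 * u) := hq2.trans (hNa u (by omega))
  have hqb : (q : ℝ) + 1 ≤ (2 : ℝ) ^ (e₁ / 2 * u) := hq2.trans (hNb u (by omega))
  obtain ⟨-, hBM, hsum, hdens⟩ := hLAM E (D / 4) hE (by positivity)
  -- values of `Y` are at most one
  have hY1 : ∀ (i : ℕ) (l k : ℤ) (j : ℕ) (x : Pl), j < 2 ^ u →
      Y (sl j) (c j) (m j) (1 / (2 : ℝ) ^ u) k ((Fa E (D / 4) i l).indicator 1) x ≤ 1 := by
    intro i l k j x hj'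
    refine (hYB (sl j) (c j) (m j) (1 / (2 : ℝ) ^ u) k ((Fa E (D / 4) i l).indicator 1) (hSlo.1 j hj')
      (by positivity) (cyo_bb_ind (hBM i l).1)).2.2.2.1 1 (fun z => ?_) x
    by_cases hz : z ∈ Fa E (D / 4) i l
    · rw [indicator_of_mem hz]
      simp
    · rw [indicator_of_notMem hz]
      simp
  have htr : ∀ (i : ℕ) (l k : ℤ) (x : Pl),
      trS (2 ^ u) 2 (fun j => Y (sl j) (c j) (m j) (1 / (2 : ℝ) ^ u) k ((Fa E (D / 4) i l).indicator 1) x) =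
      ∑ j ∈ Finset.range (2 ^ u), Y (sl j) (c j) (m j) (1 / (2 : ℝ) ^ u) k
        ((Fa E (D / 4) i l).indicator 1) x := by
    intro i l k x
    unfold trS
    refine Finset.sum_congr rfl (fun j hj' => ?_)
    rw [if_pos]
    have := hY1 i l k j x (Finset.mem_range.1 hj')
    linarith
  -- the sets
  obtain ⟨S, hS⟩ : ∃ S : ℕ → ℤ → ℕ → Set Pl, S = fun (i : ℕ) (l : ℤ) (k' : ℕ) => {x | (2 : ℝ) ^ (-(e₃ * u)) ≤
    trS (2 ^ u) 2 (fun j => Y (sl j) (c j) (m j) (1 / (2 : ℝ) ^ u) (l * 2 ^ i + (k' : ℤ))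
      ((Fa E (D / 4) i l).indicator 1) x)} := ⟨_, rfl⟩
  have hcover : {x | Loc (Cf + 10) (D / 4) (E.indicator 1) x ∧ ∃ k : ℤ,
        (2 : ℝ) ^ (-(e₃ / 2 * u)) ≤ ∑ j ∈ Finset.range (2 ^ u), Y (sl j) (c j) (m j) (1 / (2 : ℝ) ^ u) k
          ((E \ Fb E D (k - 2 ^ q)).indicator 1) x} ⊆
      ⋃ i ∈ Finset.range (q + 1), ⋃ l : ℤ, ⋃ k' ∈ Finset.range (2 ^ i), S i l k' := by
    rintro x ⟨hloc, k, hk⟩
    have h1 : ∀ j ∈ Finset.range (2 ^ u),
        Y (sl j) (c j) (m j) (1 / (2 : ℝ) ^ u) k ((E \ Fb E D (k - 2 ^ q)).indicator 1) x ≤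
        ∑ i ∈ Finset.range (q + 1),
          Y (sl j) (c j) (m j) (1 / (2 : ℝ) ^ u) k ((Fa E (D / 4) i (k / 2 ^ i)).indicator 1) x := by
      intro j hj'
      have hj2 : j < 2 ^ u := Finset.mem_range.mp hj'
      obtain ⟨hc, hm1⟩ := hj j hj2
      exact hCFB.2 E D Cf (Cf + 10) q (sl j) (c j) (m j) u x k hE hDpos (hSlo.1 j hj2) hc hm1
        le_rfl hloc
    have h2 := hk.trans (Finset.sum_le_sum h1)
    rw [Finset.sum_comm] at h2
    by_contra hcon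
    have h4 : ∀ i ∈ Finset.range (q + 1),
        ∑ j ∈ Finset.range (2 ^ u),
          Y (sl j) (c j) (m j) (1 / (2 : ℝ) ^ u) k ((Fa E (D / 4) i (k / 2 ^ i)).indicator 1) x <
        (2 : ℝ) ^ (-(e₃ * u)) := by
      intro i hi
      by_contra hi2
      push Not at hi2
      apply hcon
      have h2i : (0 : ℤ) < 2 ^ i := by positivity
      refine mem_biUnion hi (mem_iUnion.mpr ⟨k / 2 ^ i, mem_biUnion
        (x := (k % 2 ^ i).toNat) ?_ ?_⟩)
      · simp only [Finset.coe_range, mem_Iio]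
        have h5 := Int.emod_lt_of_pos k h2i
        have h6 := Int.emod_nonneg k h2i.ne'
        zify
        rw [Int.toNat_of_nonneg h6]
        exact_mod_cast h5
      · have h6 := Int.emod_nonneg k h2i.ne'
        have e : k / 2 ^ i * 2 ^ i + (((k % 2 ^ i).toNat : ℕ) : ℤ) = k := by
          rw [Int.toNat_of_nonneg h6]
          exact Int.ediv_mul_add_emod k (2 ^ i)
        simp only [hS, mem_ofPred_eq]
        rw [e, htr]
        exact hi2
    have h5 : ∑ i ∈ Finset.range (q + 1), ∑ j ∈ Finset.range (2 ^ u),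
          Y (sl j) (c j) (m j) (1 / (2 : ℝ) ^ u) k ((Fa E (D / 4) i (k / 2 ^ i)).indicator 1) x <
        ∑ i ∈ Finset.range (q + 1), (2 : ℝ) ^ (-(e₃ * u)) :=
      Finset.sum_lt_sum_of_nonempty ⟨0, Finset.mem_range.2 (by omega)⟩ h4
    rw [Finset.sum_const, Finset.card_range, nsmul_eq_mul] at h5
    have h6 : ((q + 1 : ℕ) : ℝ) * (2 : ℝ) ^ (-(e₃ * u)) ≤ (2 : ℝ) ^ (-(e₃ / 2 * u)) := by
      have e1 : (2 : ℝ) ^ (-(e₃ / 2 * u)) = (2 : ℝ) ^ (e₃ / 2 * u) * (2 : ℝ) ^ (-(e₃ * u)) := by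
        rw [← Real.rpow_add (by norm_num)]
        congr 1
        ring
      rw [e1]
      refine mul_le_mul_of_nonneg_right ?_ (Real.rpow_nonneg (by norm_num) _)
      push_cast
      exact hqa
    linarith
  -- the measure
  have hmeas : ∀ i ∈ Finset.range (q + 1), ∀ l : ℤ, ∑ k' ∈ Finset.range (2 ^ i), volume (S i l k') ≤
      ENNReal.ofReal (C₁ * (2 : ℝ) ^ ((p - e₁) * u)) * volume (Fa E (D / 4) i l) := by
    intro i hi l
    have hi' : i ≤ q := Nat.lt_succ_iff.mp (Finset.mem_range.mp hi)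
    have hK1 : (((2 ^ i : ℕ) : ℝ)) ≤ Cf * (2 : ℝ) ^ ((p - ε) * u) := by
      push_cast
      have h1 : (2 : ℝ) ^ i ≤ (2 : ℝ) ^ ((p - ε) * u) := by
        rw [← Real.rpow_natCast]
        refine Real.rpow_le_rpow_of_exponent_le (by norm_num) ?_
        have : (i : ℝ) ≤ q := by exact_mod_cast hi'
        linarith
      have h2 : (0 : ℝ) ≤ (2 : ℝ) ^ ((p - ε) * u) := Real.rpow_nonneg (by norm_num) _
      nlinarith
    have hK2 : (((2 ^ i : ℕ) : ℝ)) ≤ Cf * (2 : ℝ) ^ (p * u) := by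
      refine hK1.trans (mul_le_mul_of_nonneg_left ?_ (by linarith))
      refine Real.rpow_le_rpow_of_exponent_le (by norm_num) ?_
      exact mul_le_mul_of_nonneg_right (by linarith) hu0
    have := H u (2 ^ i) (l * 2 ^ i) 2 sl c m (Fa E (D / 4) i l) (by omega) hSlo hj hK2 (Or.inr hK1)
      (hBM i l).1 ?_
    · rw [hS]
      exact this
    · intro y k' hk'
      refine (hdens i l y k' hk').trans (ENNReal.ofReal_le_ofReal ?_)
      unfold D8
      rw [← hD]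
      have h3 : 0 ≤ D * (4 : ℝ) ^ k' := by positivity
      linarith
  calc volume {x | Loc (Cf + 10) (D / 4) (E.indicator 1) x ∧ ∃ k : ℤ,
        (2 : ℝ) ^ (-(e₃ / 2 * u)) ≤ ∑ j ∈ Finset.range (2 ^ u), Y (sl j) (c j) (m j) (1 / (2 : ℝ) ^ u) k
          ((E \ Fb E D (k - 2 ^ q)).indicator 1) x}
      ≤ volume (⋃ i ∈ Finset.range (q + 1), ⋃ l : ℤ, ⋃ k' ∈ Finset.range (2 ^ i), S i l k') :=
        measure_mono hcover
    _ ≤ ∑ i ∈ Finset.range (q + 1), volume (⋃ l : ℤ, ⋃ k' ∈ Finset.range (2 ^ i), S i l k') :=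
        measure_biUnion_finset_le _ _
    _ ≤ ∑ i ∈ Finset.range (q + 1), ∑' l : ℤ, ∑ k' ∈ Finset.range (2 ^ i), volume (S i l k') := by
        refine Finset.sum_le_sum fun i _ => (measure_iUnion_le _).trans ?_
        exact ENNReal.tsum_le_tsum fun l => measure_biUnion_finset_le _ _
    _ ≤ ∑ i ∈ Finset.range (q + 1), ENNReal.ofReal (C₁ * (2 : ℝ) ^ ((p - e₁) * u)) *
          (4 * volume E) := by
        refine Finset.sum_le_sum fun i hi => ?_
        refine (ENNReal.tsum_le_tsum fun l => hmeas i hi l).trans ?_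
        rw [ENNReal.tsum_mul_left]
        gcongr
        exact hsum i
    _ = ENNReal.ofReal (((q + 1 : ℕ) : ℝ) * (C₁ * (2 : ℝ) ^ ((p - e₁) * u)) * 4) * volume E := by
        rw [Finset.sum_const, Finset.card_range, nsmul_eq_mul]
        have f1 : ENNReal.ofReal (((q + 1 : ℕ) : ℝ) * (C₁ * (2 : ℝ) ^ ((p - e₁) * u)) * 4) =
            ((q + 1 : ℕ) : ℝ≥0∞) * ENNReal.ofReal (C₁ * (2 : ℝ) ^ ((p - e₁) * u)) * 4 := by
          rw [ENNReal.ofReal_mul (p := ((q + 1 : ℕ) : ℝ) * (C₁ * (2 : ℝ) ^ ((p - e₁) * u)))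
            (by positivity), ENNReal.ofReal_mul (p := ((q + 1 : ℕ) : ℝ)) (by positivity),
            ENNReal.ofReal_natCast]
          rw [show ENNReal.ofReal 4 = 4 by norm_num]
        rw [f1]
        ring
    _ ≤ ENNReal.ofReal (4 * C₁ * (2 : ℝ) ^ ((p - e₁ / 2) * u)) * volume E := by
        refine mul_le_mul' (ENNReal.ofReal_le_ofReal ?_) le_rfl
        have e1 : (2 : ℝ) ^ ((p - e₁ / 2) * u) = (2 : ℝ) ^ (e₁ / 2 * u) * (2 : ℝ) ^ ((p - e₁) * u) := by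
          rw [← Real.rpow_add (by norm_num)]; congr 1; ring
        rw [e1]
        have e3 : 0 ≤ C₁ * (2 : ℝ) ^ ((p - e₁) * u) := by positivity
        push_cast
        calc ((q : ℝ) + 1) * (C₁ * (2 : ℝ) ^ ((p - e₁) * u)) * 4
            ≤ ((2 : ℝ) ^ (e₁ / 2 * u)) * (C₁ * (2 : ℝ) ^ ((p - e₁) * u)) * 4 := by gcongr
          _ = 4 * C₁ * ((2 : ℝ) ^ (e₁ / 2 * u) * (2 : ℝ) ^ ((p - e₁) * u)) := by ring

end Pool.Agent.Helper91.EP
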