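import Pool.Agent.Helper68.EP.St4

/-!
# Project EP (MP_cb927e_an, helper68): module EZ2, all classes
-/

set_option autoImplicit false

open MeasureTheory Set Filter Topology
open scoped ENNReal RealInnerProductSpace

namespace Pool.Agent.Helper91.EP

open Pool.Agent.Helper68.EP Pool.Agent.Helper20.RG
open Pool.Agent.Helper20.RL (RQ Rich BM Fml)
open Pool.Agent.Helper68.LM (Pl)

/-- tails of a convergent series -/
theorem tail_le {f : ℕ → ℝ} (hf : Summable f) {δ : ℝ} (hδ : 0 < δ) :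
    ∃ N : ℕ, ∀ t : Finset ℕ, (∀ n ∈ t, N ≤ n) → ∑ n ∈ t, f n ≤ δ := by
  obtain ⟨s, hs⟩ := summable_iff_vanishing_norm.1 hf δ hδ
  refine ⟨s.sup id + 1, fun t ht => ?_⟩
  have hd : Disjoint t s := by
    rw [Finset.disjoint_left]
    intro n hn hns
    have h1 := ht n hn
    have h2 : n ≤ s.sup id := Finset.le_sup (f := id) hns
    omega
  have := hs t hd
  exact (le_abs_self _).trans this.le

theorem rpow_geo (a : ℝ) (n : ℕ) : (2 : ℝ) ^ (-(a * n)) = ((2 : ℝ) ^ (-a)) ^ n := by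
  rw [← Real.rpow_natCast ((2 : ℝ) ^ (-a)) n, ← Real.rpow_mul (by norm_num)]
  congr 1
  ring

theorem summ_pow (k : ℕ) {a : ℝ} (ha : 0 < a) : Summable (fun n : ℕ => (n : ℝ) ^ k * (2 : ℝ) ^ (-(a * n))) := by
  have h1 : ‖(2 : ℝ) ^ (-a)‖ < 1 := by
    rw [Real.norm_eq_abs, abs_of_pos (Real.rpow_pos_of_pos (by norm_num) _)]
    exact Real.rpow_lt_one_of_one_lt_of_neg (by norm_num) (by linarith)
  have h2 := summable_pow_mul_geometric_of_norm_lt_one k h1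
  refine h2.congr (fun n => ?_)
  rw [rpow_geo]

theorem tails (g C₁ C₂ K₀ : ℝ) (hg : 0 < g) : ∃ N : ℕ, ∀ t : Finset ℕ, (∀ n ∈ t, N ≤ n) →
    ∑ n ∈ t, 5 * (n : ℝ) * (2 : ℝ) ^ (-(g * n)) ≤ 1 / 2 ∧
    ∑ n ∈ t, C₂ * n * (K₀ + 8 * C₁ * n) * ((2 : ℝ) ^ (-(g * n)) + (2 : ℝ) ^ (-((n : ℝ) / 2))) ≤ 1 := by
  have s1 : Summable (fun n : ℕ => 5 * (n : ℝ) * (2 : ℝ) ^ (-(g * n))) := by
    refine ((summ_pow 1 hg).mul_left 5).congr (fun n => ?_)
    ring
  have s2 : Summable (fun n : ℕ => C₂ * n * (K₀ + 8 * C₁ * n) *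
      ((2 : ℝ) ^ (-(g * n)) + (2 : ℝ) ^ (-((n : ℝ) / 2)))) := by
    have a1 := (summ_pow 1 hg).mul_left (C₂ * K₀)
    have a2 := (summ_pow 2 hg).mul_left (C₂ * 8 * C₁)
    have a3 := (summ_pow 1 (a := 1 / 2) (by norm_num)).mul_left (C₂ * K₀)
    have a4 := (summ_pow 2 (a := 1 / 2) (by norm_num)).mul_left (C₂ * 8 * C₁)
    refine ((a1.add a2).add (a3.add a4)).congr (fun n => ?_)
    have e : (2 : ℝ) ^ (-((n : ℝ) / 2)) = (2 : ℝ) ^ (-(1 / 2 * (n : ℝ))) := by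
      congr 1
      ring
    rw [e]
    ring
  obtain ⟨N₁, h1⟩ := tail_le s1 (δ := 1 / 2) (by norm_num)
  obtain ⟨N₂, h2⟩ := tail_le s2 (δ := 1) (by norm_num)
  exact ⟨max N₁ N₂, fun t ht => ⟨h1 t (fun n hn => (le_max_left _ _).trans (ht n hn)),
    h2 t (fun n hn => (le_max_right _ _).trans (ht n hn))⟩⟩

/-- the absorption argument -/
theorem absorb {S A : ℝ≥0∞} (hS : S ≠ ⊤) (h : S ≤ A + ENNReal.ofReal (1 / 2) * S) : S ≤ 2 * A := by
  have e : ENNReal.ofReal (1 / 2) * S + ENNReal.ofReal (1 / 2) * S = S := by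
    rw [← add_mul, ← ENNReal.ofReal_add (by norm_num) (by norm_num)]
    norm_num
  have hf : ENNReal.ofReal (1 / 2) * S ≠ ⊤ := ENNReal.mul_ne_top ENNReal.ofReal_ne_top hS
  have h1 : ENNReal.ofReal (1 / 2) * S ≤ A := by
    have h2 : ENNReal.ofReal (1 / 2) * S + ENNReal.ofReal (1 / 2) * S ≤ A + ENNReal.ofReal (1 / 2) * S := by
      rw [e]; exact h
    exact (ENNReal.add_le_add_iff_right hf).1 h2
  calc S = ENNReal.ofReal (1 / 2) * S + ENNReal.ofReal (1 / 2) * S := e.symm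
    _ ≤ A + A := add_le_add h1 h1
    _ = 2 * A := (two_mul A).symm

/-- the weighted measures are finite -/
theorem SVu_ne_top (hEAP : StEAP) (P : Par) (Δ : Dat) (u : ℕ) (θ : ℝ) (E : Set Pl) (hSy : Sy P Δ)
    (hOk : Ok P u θ) (hE : BM E) : SVu P Δ u θ E ≠ ⊤ := by
  unfold SVu wt
  refine ENNReal.mul_ne_top ENNReal.ofReal_ne_top ?_
  refine (ENNReal.sum_ne_top).2 (fun j hj => ?_)
  have h1 := hEAP P Δ u j θ E hSy hOk (Finset.mem_range.1 hj) hE
  refine ne_top_of_le_ne_top ?_ h1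
  exact ENNReal.mul_ne_top ENNReal.ofReal_ne_top hE.2.measure_lt_top.ne

/-- `M = 0` -/
theorem SMu_zero (hEV0 : StEV0) (P : Par) (Δ : Dat) (u : ℕ) (θ : ℝ) (E : Set Pl) (hSy : Sy P Δ)
    (hOk : Ok P u θ) (hE : BM E) : SMu P Δ u θ 0 E = SVu P Δ u θ E := by
  unfold SMu SVu
  congr 1
  refine Finset.sum_congr rfl (fun j hj => ?_)
  refine tsum_congr (fun k => ?_)
  rw [hEV0 P Δ u j k θ E hSy hOk (Finset.mem_range.1 hj) hE]

theorem g_pos (P : Par) : 0 < P.g := by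
  unfold Par.g
  have := P.hs
  linarith

/-- comparison of powers of `2` -/
theorem rp_le {a b : ℝ} (h : b ≤ a) : (2 : ℝ) ^ (-a) ≤ (2 : ℝ) ^ (-b) :=
  Real.rpow_le_rpow_of_exponent_le (by norm_num) (by linarith)

/-- Module EZ2. -/
theorem hEZ2 (hEV0 : StEV0) (hEAP : StEAP) (hEZM : StEZM) (hEN1 : StEN1) (hEZ1 : StEZ1) (hEBS : StEBS) :
    StEZ2 := by
  intro P
  obtain ⟨C, hC, hZM⟩ := hEZM P
  obtain ⟨v₁, hv₁, hN1⟩ := hEN1 P
  obtain ⟨C₁, v₂, hC₁, hZ1⟩ := hEZ1 P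
  obtain ⟨C₂, v₃, hC₂, hBS⟩ := hEBS P
  have hg := g_pos P
  obtain ⟨K₀, hK₀⟩ : ∃ K₀ : ℝ, K₀ = 8 * C + 2 := ⟨_, rfl⟩
  have hK₀p : 0 ≤ K₀ := by rw [hK₀]; linarith
  obtain ⟨N, hN⟩ := tails P.g C₁ C₂ K₀ hg
  obtain ⟨u₀, hu₀⟩ : ∃ u₀ : ℕ, u₀ = v₁ + v₂ + v₃ + N := ⟨_, rfl⟩
  refine ⟨K₀, u₀, by rw [hK₀]; linarith, ?_⟩
  intro Δ U₀ U₁ θ E hSy hU₀ hθ hθ1 hE
  -- induction
  induction hn : U₁ - U₀ using Nat.strong_induction_on generalizing U₀ U₁ θ E with
  | _ n ih =>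
    have hgU : ∀ u : ℕ, U₀ ≤ u → P.g * (U₀ : ℝ) ≤ P.g * u := fun u hu =>
      mul_le_mul_of_nonneg_left (by exact_mod_cast hu) hg.le
    have hθ0 : 0 < θ := lt_of_lt_of_le (Real.rpow_pos_of_pos (by norm_num) _) hθ
    have hOk : ∀ u : ℕ, U₀ ≤ u → u ≤ U₁ → Ok P u θ := by
      intro u hu _
      refine (hN1 u θ (by omega) ?_ hθ1).1
      refine (rp_le ?_).trans hθ
      have h1 := hgU u hu
      have h2 : 0 ≤ P.g * (u : ℝ) := by positivity
      linarith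
    obtain ⟨S, hS⟩ : ∃ S : ℝ≥0∞, S = ∑ u ∈ Finset.Icc U₀ U₁, SVu P Δ u θ E := ⟨_, rfl⟩
    have hSM : ∑ u ∈ Finset.Icc U₀ U₁, SMu P Δ u θ 0 E = S := by
      rw [hS]
      refine Finset.sum_congr rfl (fun u hu => ?_)
      rw [Finset.mem_Icc] at hu
      exact SMu_zero hEV0 P Δ u θ E hSy (hOk u hu.1 hu.2) hE
    have hSt : S ≠ ⊤ := by
      rw [hS]
      refine ENNReal.sum_ne_top.2 (fun u hu => ?_)
      rw [Finset.mem_Icc] at hu
      exact SVu_ne_top hEAP P Δ u θ E hSy (hOk u hu.1 hu.2) hE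
    -- the bad sums
    have hbad : ∀ u₁ ∈ Finset.Icc U₀ U₁,
        ENNReal.ofReal (4 / θ) * ∑ u ∈ Finset.Icc U₀ U₁, SBu P Δ u₁ u θ 0 E ≤
          ENNReal.ofReal (5 * u₁ * (2 : ℝ) ^ (-(P.g * u₁))) * S +
          ENNReal.ofReal (C₂ * u₁ * (K₀ + 8 * C₁ * u₁) *
            ((2 : ℝ) ^ (-(P.g * u₁)) + (2 : ℝ) ^ (-((u₁ : ℝ) / 2))) / θ) * volume E := by
      intro u₁ hu₁
      rw [Finset.mem_Icc] at hu₁
      have hu₁1 : 1 ≤ u₁ := by omega
      have hKp : 0 ≤ K₀ + 8 * C₁ * u₁ := by positivity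
      have hk := hBS Δ U₀ U₁ u₁ θ 0 (K₀ + 8 * C₁ * u₁) E hSy (by omega) hu₁.1 hu₁.2 hθ hθ1 hKp hE ?_
      · rw [hSM] at hk
        refine hk.trans (add_le_add le_rfl ?_)
        refine mul_le_mul_left ?_ _
        refine ENNReal.ofReal_le_ofReal ?_
        refine div_le_div_of_nonneg_right ?_ hθ0.le
        refine mul_le_mul_of_nonneg_left ?_ (by positivity)
        refine add_le_add ?_ le_rfl
        rw [div_le_iff₀ hθ0]
        have e : (2 : ℝ) ^ (-(2 * P.g * u₁)) = (2 : ℝ) ^ (-(P.g * u₁)) * (2 : ℝ) ^ (-(P.g * u₁)) := by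
          rw [← Real.rpow_add (by norm_num)]
          congr 1
          ring
        rw [e]
        refine mul_le_mul_of_nonneg_left ?_ (Real.rpow_nonneg (by norm_num) _)
        exact (rp_le (hgU u₁ hu₁.1)).trans hθ
      · -- the hypothesis on `K`
        intro θ₁ E₁ hθ₁ hθ₁1 hE₁
        have hθ₁0 : 0 < θ₁ := lt_of_lt_of_le (Real.rpow_pos_of_pos (by norm_num) _) hθ₁
        have hgu : 0 ≤ P.g * (u₁ : ℝ) := by positivity
        have hA : ∑ u ∈ Finset.Ioo u₁ (8 * u₁), SVu P Δ u θ₁ E₁ ≤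
            ENNReal.ofReal (8 * C₁ * u₁ / θ₁) * volume E₁ := by
          have h1 : ∀ u ∈ Finset.Ioo u₁ (8 * u₁), SVu P Δ u θ₁ E₁ ≤ ENNReal.ofReal (C₁ / θ₁) * volume E₁ := by
            intro u hu
            rw [Finset.mem_Ioo] at hu
            refine hZ1 Δ u θ₁ E₁ hSy (by omega) ?_ hθ₁1 hE₁
            refine (rp_le ?_).trans hθ₁
            have h3 : P.g * (u₁ : ℝ) ≤ P.g * u := mul_le_mul_of_nonneg_left (by exact_mod_cast hu.1.le) hg.le
            nlinarith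
          refine (Finset.sum_le_sum h1).trans ?_
          rw [Finset.sum_const, Nat.card_Ioo, nsmul_eq_mul, ← mul_assoc]
          refine mul_le_mul_left ?_ _
          rw [← ENNReal.ofReal_natCast, ← ENNReal.ofReal_mul (by positivity)]
          refine ENNReal.ofReal_le_ofReal ?_
          have h4 : ((8 * u₁ - u₁ - 1 : ℕ) : ℝ) ≤ 8 * u₁ := by
            have : 8 * u₁ - u₁ - 1 ≤ 8 * u₁ := by omega
            exact_mod_cast this
          have h5 : 0 ≤ C₁ / θ₁ := by positivity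
          calc ((8 * u₁ - u₁ - 1 : ℕ) : ℝ) * (C₁ / θ₁) ≤ (8 * u₁) * (C₁ / θ₁) :=
                mul_le_mul_of_nonneg_right h4 h5
            _ = 8 * C₁ * u₁ / θ₁ := by ring
        have hB : ∑ u ∈ Finset.Icc (8 * u₁) U₁, SVu P Δ u θ₁ E₁ ≤ ENNReal.ofReal (K₀ / θ₁) * volume E₁ := by
          by_cases hc : 8 * u₁ ≤ U₁
          · refine ih (U₁ - 8 * u₁) (by omega) (8 * u₁) U₁ θ₁ E₁ (by omega) ?_ hθ₁1 hE₁ rfl
            refine (rp_le ?_).trans hθ₁
            push_cast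
            nlinarith
          · rw [Finset.Icc_eq_empty (by omega), Finset.sum_empty]
            exact zero_le
        have hsub : Finset.Ioc u₁ U₁ ⊆ Finset.Ioo u₁ (8 * u₁) ∪ Finset.Icc (8 * u₁) U₁ := by
          intro u hu
          rw [Finset.mem_Ioc] at hu
          rw [Finset.mem_union, Finset.mem_Ioo, Finset.mem_Icc]
          omega
        calc ∑ u ∈ Finset.Ioc u₁ U₁, SVu P Δ u θ₁ E₁
            ≤ ∑ u ∈ Finset.Ioo u₁ (8 * u₁) ∪ Finset.Icc (8 * u₁) U₁, SVu P Δ u θ₁ E₁ :=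
              Finset.sum_le_sum_of_subset hsub
          _ ≤ ∑ u ∈ Finset.Ioo u₁ (8 * u₁), SVu P Δ u θ₁ E₁ + ∑ u ∈ Finset.Icc (8 * u₁) U₁, SVu P Δ u θ₁ E₁ := by
              have hdis : Disjoint (Finset.Ioo u₁ (8 * u₁)) (Finset.Icc (8 * u₁) U₁) := by
                rw [Finset.disjoint_left]
                intro u h1 h2
                rw [Finset.mem_Ioo] at h1
                rw [Finset.mem_Icc] at h2
                omega
              rw [Finset.sum_union hdis]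
          _ ≤ ENNReal.ofReal (8 * C₁ * u₁ / θ₁) * volume E₁ + ENNReal.ofReal (K₀ / θ₁) * volume E₁ :=
              add_le_add hA hB
          _ = ENNReal.ofReal ((K₀ + 8 * C₁ * u₁) / θ₁) * volume E₁ := by
              rw [← add_mul, ← ENNReal.ofReal_add (by positivity) (by positivity)]
              congr 2
              ring
    -- the master inequality
    have hm := hZM Δ U₀ U₁ θ 0 E hSy hOk hE hθ0
    rw [hSM] at hm
    have hmax : (max (1 : ℝ) 0) ^ (1 - P.p) = 1 := by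
      rw [max_eq_left (by norm_num), Real.one_rpow]
    rw [hmax, mul_one, mul_add, Finset.mul_sum] at hm
    have hsum := Finset.sum_le_sum hbad
    have ht := hN (Finset.Icc U₀ U₁) (fun n hn => by
      rw [Finset.mem_Icc] at hn
      omega)
    have hs1 : ∑ u₁ ∈ Finset.Icc U₀ U₁, (ENNReal.ofReal (5 * u₁ * (2 : ℝ) ^ (-(P.g * u₁))) * S +
          ENNReal.ofReal (C₂ * u₁ * (K₀ + 8 * C₁ * u₁) *
            ((2 : ℝ) ^ (-(P.g * u₁)) + (2 : ℝ) ^ (-((u₁ : ℝ) / 2))) / θ) * volume E) ≤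
        ENNReal.ofReal (1 / 2) * S + ENNReal.ofReal (1 / θ) * volume E := by
      rw [Finset.sum_add_distrib, ← Finset.sum_mul, ← Finset.sum_mul,
        ← ENNReal.ofReal_sum_of_nonneg (fun i _ => by positivity),
        ← ENNReal.ofReal_sum_of_nonneg (fun i _ => by positivity), ← Finset.sum_div]
      refine add_le_add (mul_le_mul_left (ENNReal.ofReal_le_ofReal ht.1) _) ?_
      refine mul_le_mul_left (ENNReal.ofReal_le_ofReal ?_) _
      exact div_le_div_of_nonneg_right ht.2 hθ0.le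
    have hfin : S ≤ (ENNReal.ofReal (4 / θ) * (ENNReal.ofReal C * volume E) +
        ENNReal.ofReal (1 / θ) * volume E) + ENNReal.ofReal (1 / 2) * S := by
      refine hm.trans ?_
      refine (add_le_add le_rfl (hsum.trans hs1)).trans (le_of_eq ?_)
      ring
    have hres := absorb hSt hfin
    rw [← hS]
    refine hres.trans (le_of_eq ?_)
    rw [← mul_assoc, ← ENNReal.ofReal_mul (by positivity), ← add_mul, ← ENNReal.ofReal_add (by positivity)
      (by positivity), ← mul_assoc]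
    congr 1
    rw [show (2 : ℝ≥0∞) = ENNReal.ofReal 2 by norm_num, ← ENNReal.ofReal_mul (by norm_num)]
    congr 1
    rw [hK₀]
    field_simp
    ring

end Pool.Agent.Helper91.EP
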