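import Pool.Agent.Helper61.EP.StL

set_option autoImplicit false

open MeasureTheory Set Filter Topology
open scoped ENNReal RealInnerProductSpace

namespace Pool.Agent.Helper91.EPL

open Pool.Agent.Helper61.EPL Pool.Agent.Helper20.RG Pool.Agent.Helper68.EP
open Pool.Agent.Helper20.RL (RQ Rich BM Fml Hit)
open Pool.Agent.Helper61.EP (trS Ex2 Yc Zc Ec am cutf)
open Pool.Agent.Helper68.LM (Pl BB Bd Av HL ft fm DQ)

theorem gmono {φ τ : ℝ → ℝ} (h : Graph φ τ) : Monotone τ := by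
  intro t t' htt
  rcases eq_or_lt_of_le htt with h1 | h1
  · rw [h1]
  · have h2 := h.2 t t' htt
    have h3 : τ t * (t' - t) ≤ τ t' * (t' - t) := h2.1.trans h2.2
    exact le_of_mul_le_mul_right h3 (by linarith)

theorem gtrn {φ τ : ℝ → ℝ} (hG : Graph φ τ) (u j : ℕ) (hj : j < 2 ^ u) (t : ℝ)
    (ht : t ∈ Icc ((j : ℝ) / 2 ^ u) (((j : ℝ) + 1) / 2 ^ u)) : |τ t - τ (tm u j)| ≤ trn τ u j := by
  have hτ := gmono hG
  have hu : (0 : ℝ) < 2 ^ u := by positivity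
  have hj1 : (j : ℝ) + 1 ≤ 2 ^ u := by exact_mod_cast hj
  have hj0 : (0 : ℝ) ≤ j := by positivity
  have key : ∀ r ∈ Icc ((j : ℝ) / 2 ^ u) (((j : ℝ) + 1) / 2 ^ u),
      τ (max 0 (((j : ℝ) - 1) / 2 ^ u)) ≤ τ r ∧ τ r ≤ τ (min 1 (((j : ℝ) + 2) / 2 ^ u)) := by
    intro r hr
    constructor
    · apply hτ
      apply max_le
      · exact le_trans (by positivity) hr.1
      · refine le_trans ?_ hr.1
        apply div_le_div_of_nonneg_right _ hu.le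
        linarith
    · apply hτ
      apply le_min
      · refine hr.2.trans ?_
        rw [div_le_one hu]
        exact hj1
      · refine hr.2.trans ?_
        apply div_le_div_of_nonneg_right _ hu.le
        linarith
  have k1 := key t ht
  have k2 := key (tm u j) ⟨by unfold tm; apply div_le_div_of_nonneg_right _ hu.le; linarith,
    by unfold tm; apply div_le_div_of_nonneg_right _ hu.le; linarith⟩
  unfold trn
  rw [abs_le]
  constructor <;> linarith [k1.1, k1.2, k2.1, k2.2]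

theorem hLM1 (hPT : Pool.Agent.Helper20.RG.StPT) (hMB : Pool.Agent.Helper20.RG.StMB)
    (hMM : Pool.Agent.Helper20.RG.StMM) : Pool.Agent.Helper61.EPL.StLM1 := by
  obtain ⟨C, hC, hMB⟩ := hMB
  refine ⟨C, hC, ?_⟩
  intro φ τ A₁ p c hG hGap hA hp u j i a ξ hu hj hel hξ
  by_contra hcon
  rw [not_le] at hcon
  obtain ⟨hc1, _, hc3, hc4, _, _, _, _⟩ := hPT
  obtain ⟨m1, m2, m3, m4, m5, m6, m7⟩ := hMM φ τ A₁ p hG hGap hA hp u j (by omega) hj
  have hmm := m7 hu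
  obtain ⟨_, _, b3, b4, _⟩ := hMB (τ (tm u j)) (ce c φ u j) (mm τ u j) (mm τ (u - 1) (j / 2))
    ((2 : ℝ) ^ 0) ξ (hG.1 _) hmm (by norm_num)
  obtain ⟨z, hz⟩ : ∃ z, z = ‖Zh (τ (tm u j)) (ce c φ u j) (mm τ u j) (mm τ (u - 1) (j / 2))
    ((2 : ℝ) ^ 0) ξ‖ := ⟨_, rfl⟩
  rw [← hz] at hcon b3 b4
  obtain ⟨m, hm⟩ : ∃ m, m = mm τ u j := ⟨_, rfl⟩
  rw [← hm] at b3 m3
  obtain ⟨s, hs⟩ : ∃ s, s = τ (tm u j) := ⟨_, rfl⟩
  rw [← hs] at b4
  have hs1 : |s| ≤ 1 := by rw [hs]; exact hG.1 _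
  have hC0 : (0 : ℝ) < C := by linarith
  have hpa : (0 : ℝ) < 2 ^ a := by positivity
  have hza : (2 : ℝ) ^ (-(a : ℤ)) = 1 / 2 ^ a := by rw [zpow_neg, zpow_natCast, one_div]
  rw [hza] at hcon
  have hzpos : 0 < z := lt_of_le_of_lt (by positivity) hcon
  have hCz : C < z * 2 ^ a := by
    have := (mul_lt_mul_iff_left₀ hpa).2 hcon
    have h2 : C * (1 / 2 ^ a) * 2 ^ a = C := by field_simp
    rwa [h2] at this
  have hr0 : 0 < ‖ξ‖ := lt_of_lt_of_le (by positivity) hξ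
  -- the norm is less than `2^(m+a)`
  have hrm : ‖ξ‖ < 2 ^ (m + a) := by
    by_contra h
    rw [not_lt] at h
    have h1 : C * 2 ^ m < z * ‖ξ‖ := by
      calc C * 2 ^ m < z * 2 ^ a * 2 ^ m := by
            apply mul_lt_mul_of_pos_right hCz (by positivity)
        _ = z * 2 ^ (m + a) := by rw [pow_add]; ring
        _ ≤ z * ‖ξ‖ := mul_le_mul_of_nonneg_left h hzpos.le
    linarith
  have him : i + u + 1 < m := by
    have h1 : (2 : ℝ) ^ (i + u + a + 1) < 2 ^ (m + a) := lt_of_le_of_lt hξ hrm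
    have h2 := (pow_lt_pow_iff_right₀ (by norm_num : (1 : ℝ) < 2)).1 h1
    omega
  have hin : |⟪E s, ξ⟫| < 2 ^ a := by
    by_contra h
    rw [not_lt] at h
    have h1 : z * 2 ^ a ≤ z * |⟪E s, ξ⟫| := mul_le_mul_of_nonneg_left h hzpos.le
    have h2 : z * ((2 : ℝ) ^ 0 * |⟪E s, ξ⟫|) = z * |⟪E s, ξ⟫| := by ring
    rw [h2] at b4
    linarith
  have hE0 : (E s) 0 = 1 := (hc1 1 s).1
  have hE1 : (E s) 1 = s := (hc1 1 s).2
  rw [hc4, hE0, hE1, one_mul] at hin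
  obtain ⟨n1, n2, n3, _⟩ := hc3 ξ
  have hra : (2 : ℝ) ^ a * 2 * (2 ^ i * 2 ^ u) ≤ ‖ξ‖ := by
    calc (2 : ℝ) ^ a * 2 * (2 ^ i * 2 ^ u) = 2 ^ (i + u + a + 1) := by
          rw [pow_add, pow_add, pow_add]; ring
      _ ≤ _ := hξ
  have hpi : (1 : ℝ) ≤ 2 ^ i := one_le_pow₀ (by norm_num)
  have hpu : (4 : ℝ) ≤ 2 ^ u := by
    calc (4 : ℝ) = 2 ^ 2 := by norm_num
      _ ≤ 2 ^ u := pow_le_pow_right₀ (by norm_num) hu
  have hx1 : ‖ξ‖ / 4 ≤ |ξ 1| := by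
    by_contra h
    rw [not_le] at h
    have h1 : |ξ 0| ≤ |ξ 0 + s * ξ 1| + |s * ξ 1| := by
      have h2 := abs_sub (ξ 0 + s * ξ 1) (s * ξ 1)
      have h3 : ξ 0 + s * ξ 1 - s * ξ 1 = ξ 0 := by ring
      rwa [h3] at h2
    have h2 : |s * ξ 1| ≤ |ξ 1| := by
      rw [abs_mul]
      calc |s| * |ξ 1| ≤ 1 * |ξ 1| := mul_le_mul_of_nonneg_right hs1 (abs_nonneg _)
        _ = |ξ 1| := one_mul _
    have h3 : (2 : ℝ) ^ a * 2 * (1 * 4) ≤ (2 : ℝ) ^ a * 2 * (2 ^ i * 2 ^ u) := by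
      apply mul_le_mul_of_nonneg_left _ (by positivity)
      exact mul_le_mul hpi hpu (by norm_num) (by positivity)
    linarith
  have hx1p : 0 < |ξ 1| := lt_of_lt_of_le (by positivity) hx1
  have hx1n : ξ 1 ≠ 0 := abs_pos.1 hx1p
  have hsθ : |s - -(ξ 0) / ξ 1| < 1 / 2 ^ (i + 1) := by
    have h1 : s - -(ξ 0) / ξ 1 = (ξ 0 + s * ξ 1) / ξ 1 := by field_simp; ring
    rw [h1, abs_div, div_lt_div_iff₀ hx1p (by positivity), one_mul]
    calc |ξ 0 + s * ξ 1| * 2 ^ (i + 1) < 2 ^ a * 2 ^ (i + 1) := by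
          apply mul_lt_mul_of_pos_right hin (by positivity)
      _ = (2 : ℝ) ^ a * 2 * (2 ^ i * 4) / 4 := by rw [pow_add]; ring
      _ ≤ (2 : ℝ) ^ a * 2 * (2 ^ i * 2 ^ u) / 4 := by gcongr
      _ ≤ ‖ξ‖ / 4 := by linarith
      _ ≤ |ξ 1| := hx1
  have htr : trn τ u j ≤ 1 / 2 ^ (i + 1) := by
    rw [le_div_iff₀ (by positivity)]
    by_contra h
    rw [not_le] at h
    have h1 : (2 : ℝ) ^ u < 2 ^ m * trn τ u j := by
      calc (2 : ℝ) ^ u = 1 * 2 ^ u := (one_mul _).symm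
        _ < trn τ u j * 2 ^ (i + 1) * 2 ^ u := mul_lt_mul_of_pos_right h (by positivity)
        _ = trn τ u j * 2 ^ (i + 1 + u) := by rw [pow_add _ (i + 1)]; ring
        _ ≤ trn τ u j * 2 ^ m := by
            apply mul_le_mul_of_nonneg_left _ m1.le
            exact pow_le_pow_right₀ (by norm_num) (by omega)
        _ = _ := by ring
    linarith
  have hsub : Icc ((j : ℝ) / 2 ^ u) (((j : ℝ) + 1) / 2 ^ u) ⊆ {t : ℝ | t ∈ Icc (0 : ℝ) 1 ∧
      |τ t - -(ξ 0) / ξ 1| ≤ (2 : ℝ) ^ (-(i : ℤ))} := by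
    intro t ht
    have hj1 : (j : ℝ) + 1 ≤ 2 ^ u := by exact_mod_cast hj
    refine ⟨⟨le_trans (by positivity) ht.1, ht.2.trans ?_⟩, ?_⟩
    · rw [div_le_one (by positivity)]; exact hj1
    · have h1 := gtrn hG u j hj t ht
      rw [← hs] at h1
      have h2 : |τ t - -(ξ 0) / ξ 1| ≤ |τ t - s| + |s - -(ξ 0) / ξ 1| := abs_sub_le _ _ _
      have h3 : (2 : ℝ) ^ (-(i : ℤ)) = 1 / 2 ^ (i + 1) + 1 / 2 ^ (i + 1) := by
        rw [zpow_neg, zpow_natCast, pow_succ]; field_simp; norm_num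
      rw [h3]
      linarith
  have hfin : volume {t : ℝ | t ∈ Icc (0 : ℝ) 1 ∧
      |τ t - -(ξ 0) / ξ 1| ≤ (2 : ℝ) ^ (-(i : ℤ))} ≠ ⊤ := by
    apply ne_top_of_le_ne_top (b := volume (Icc (0 : ℝ) 1))
    · rw [Real.volume_Icc]; exact ENNReal.ofReal_ne_top
    · exact measure_mono (fun t ht => ht.1)
  have h1 := ENNReal.toReal_mono hfin (measure_mono hsub)
  rw [Real.volume_Icc] at h1
  have h3 : ((j : ℝ) + 1) / 2 ^ u - (j : ℝ) / 2 ^ u = 1 / 2 ^ u := by ring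
  rw [h3, ENNReal.toReal_ofReal (by positivity)] at h1
  have h4 : (2 : ℝ) ^ (-(u : ℤ)) = 1 / 2 ^ u := by rw [zpow_neg, zpow_natCast, one_div]
  rw [h4] at hel
  unfold elt at hel
  linarith

end Pool.Agent.Helper91.EPL
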