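import Pool.Agent.Helper61.EP.StL

set_option autoImplicit false

open MeasureTheory Set Filter Topology
open scoped ENNReal RealInnerProductSpace

namespace Pool.Agent.Helper91.EPL

open Pool.Agent.Helper61.EPL Pool.Agent.Helper20.RG Pool.Agent.Helper68.EP
open Pool.Agent.Helper20.RL (RQ Rich BM Fml Hit)
open Pool.Agent.Helper61.EP (trS Ex2 Yc Zc Ec am cutf)
open Pool.Agent.Helper68.LM (Pl BB Bd Av HL ft fm DQ)

theorem hLM2 (hMB : Pool.Agent.Helper20.RG.StMB) (hMM : Pool.Agent.Helper20.RG.StMM)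
    (hSYS : Pool.Agent.Helper20.RG.StSYS) (hU1 : Pool.Agent.Helper20.RG.StU1)
    (hOCT : Pool.Agent.Helper20.RG.StOCT) (hLM1 : Pool.Agent.Helper61.EPL.StLM1) :
    Pool.Agent.Helper61.EPL.StLM2 := by
  obtain ⟨CB, hCB, hMB⟩ := hMB
  obtain ⟨C1, hC1, hU1⟩ := hU1 200 (by norm_num)
  obtain ⟨CL, hCL, hLM1⟩ := hLM1
  obtain ⟨C2, hC2⟩ : ∃ C2 : ℝ, C2 = 2 * C1 + 4 * CB + CL := ⟨_, rfl⟩
  refine ⟨12 * C2, by linarith, ?_⟩
  intro φ τ A₁ p c hG hGap hA hp u n ξ hu hξ hel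
  have hsys := (hSYS φ τ A₁ p c hG hGap hA hp u (by omega)).2 hu
  have hpu : (0 : ℝ) < 2 ^ u := by positivity
  -- bound by a constant
  have hbd : ∀ ξ' : Pl, ξ' ≠ 0 → am c φ τ u ξ' ≤ C2 := by
    intro ξ' hξ'
    have h1 := hU1 u _ _ _ _ _ _ _ _ hsys ξ' ((2 : ℝ) ^ 0) hξ' (by norm_num)
    have h2 : C1 * (1 + 1 / Real.sqrt ((2 : ℝ) ^ 0)) = 2 * C1 := by
      rw [pow_zero, Real.sqrt_one]; ring
    rw [h2] at h1
    unfold am
    linarith
  refine ⟨(hbd ξ hξ).trans (by linarith), ?_⟩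
  have hk0 : ∀ k : ℤ, (2 : ℝ) ^ k • ξ ≠ 0 := fun k => smul_ne_zero (by positivity) hξ
  have hkn : ∀ k : ℤ, ‖(2 : ℝ) ^ k • ξ‖ = 2 ^ k * ‖ξ‖ := by
    intro k
    rw [norm_smul, Real.norm_of_nonneg (by positivity)]
  have hr : 0 < ‖ξ‖ := norm_pos_iff.2 hξ
  have key := hOCT (fun k => ENNReal.ofReal (am c φ τ u ((2 : ℝ) ^ k • ξ))) ‖ξ‖ C2 0
    ((n : ℤ) + 2 * u + 4) hr (by linarith) (by positivity)
    (fun k => ENNReal.ofReal_le_ofReal (hbd _ (hk0 k))) ?_ ?_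
  · refine key.trans (ENNReal.ofReal_le_ofReal ?_)
    have hn : (0 : ℝ) ≤ n := by positivity
    have hu0 : (0 : ℝ) ≤ u := by positivity
    have h1 : (((n : ℤ) + 2 * u + 4 : ℤ) : ℝ) - ((0 : ℤ) : ℝ) + 8 = n + 2 * u + 12 := by
      push_cast; ring
    rw [h1]
    have h2 : (n : ℝ) + 2 * u + 12 ≤ 12 * (n + u + 1) := by linarith
    calc C2 * ((n : ℝ) + 2 * u + 12) ≤ C2 * (12 * (n + u + 1)) :=
          mul_le_mul_of_nonneg_left h2 (by linarith)
      _ = _ := by ring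
  · -- low frequencies
    intro k hk
    apply ENNReal.ofReal_le_ofReal
    have h1 : ∀ j ∈ Finset.range (2 ^ u), ‖Zh (τ (tm u j)) (ce c φ u j) (mm τ u j)
        (mm τ (u - 1) (j / 2)) ((2 : ℝ) ^ 0) ((2 : ℝ) ^ k • ξ)‖ ≤
          CB * (2 ^ k * ‖ξ‖ * (4 / 2 ^ u)) := by
      intro j hj
      have hj' := Finset.mem_range.1 hj
      have hmm := (hMM φ τ A₁ p hG hGap hA hp u j (by omega) hj').2.2.2.2.2.2 hu
      obtain ⟨_, b2, _⟩ := hMB (τ (tm u j)) (ce c φ u j) (mm τ u j) (mm τ (u - 1) (j / 2))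
        ((2 : ℝ) ^ 0) ((2 : ℝ) ^ k • ξ) (hG.1 _) hmm (by norm_num)
      rw [hkn] at b2
      have hj2 : j / 2 < 2 ^ (u - 1) := by
        rw [Nat.div_lt_iff_lt_mul (by norm_num)]
        calc j < 2 ^ u := hj'
          _ = 2 ^ (u - 1) * 2 := by rw [← pow_succ]; congr 1; omega
      have hm5 := (hMM φ τ A₁ p hG hGap hA hp (u - 1) (j / 2) (by omega) hj2).2.2.2.2.1
      refine b2.trans ?_
      apply mul_le_mul_of_nonneg_left _ (by linarith)
      apply mul_le_mul_of_nonneg_left _ (by positivity)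
      rw [zpow_neg, zpow_natCast, ← one_div, div_le_div_iff₀ (by positivity) hpu, one_mul]
      calc (2 : ℝ) ^ u ≤ 2 ^ (mm τ (u - 1) (j / 2) + 2) :=
            pow_le_pow_right₀ (by norm_num) (by omega)
        _ = _ := by rw [pow_add]; ring
    calc am c φ τ u ((2 : ℝ) ^ k • ξ) ≤ ∑ j ∈ Finset.range (2 ^ u),
          CB * (2 ^ k * ‖ξ‖ * (4 / 2 ^ u)) := Finset.sum_le_sum h1
      _ = 4 * CB * (2 ^ k * ‖ξ‖) := by
          rw [Finset.sum_const, Finset.card_range, nsmul_eq_mul]; push_cast; field_simp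
      _ ≤ C2 * (2 ^ k * ‖ξ‖) := by
          apply mul_le_mul_of_nonneg_right _ (by positivity)
          linarith
      _ = _ := by rw [zpow_zero, div_one]
  · -- high frequencies
    intro k hk
    apply ENNReal.ofReal_le_ofReal
    obtain ⟨x, hx⟩ : ∃ x, x = (2 : ℝ) ^ k * ‖ξ‖ := ⟨_, rfl⟩
    have hx0 : 0 < x := by rw [hx]; positivity
    have hq : (2 : ℝ) ^ ((n : ℤ) + 2 * u + 4) = 2 ^ (n + 2 * u + 4) := by
      rw [← zpow_natCast]; push_cast; rfl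
    rw [← hx] at hk ⊢
    rw [hq] at hk ⊢
    have hxe : 1 ≤ x / 2 ^ (n + u + 2) := by
      rw [le_div_iff₀ (by positivity), one_mul]
      refine le_trans ?_ hk
      exact pow_le_pow_right₀ (by norm_num) (by omega)
    obtain ⟨a, ha1, ha2⟩ := exists_nat_pow_near hxe (by norm_num : (1 : ℝ) < 2)
    rw [le_div_iff₀ (by positivity), ← pow_add] at ha1
    rw [div_lt_iff₀ (by positivity), ← pow_add] at ha2
    have hrat : -(((2 : ℝ) ^ k • ξ) 0) / ((2 : ℝ) ^ k • ξ) 1 = -(ξ 0) / ξ 1 := by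
      have h0 : ((2 : ℝ) ^ k • ξ) 0 = 2 ^ k * ξ 0 := by simp
      have h1 : ((2 : ℝ) ^ k • ξ) 1 = 2 ^ k * ξ 1 := by simp
      rw [h0, h1, neg_mul_eq_mul_neg, mul_div_mul_left _ _ (by positivity)]
    have h1 : ∀ j ∈ Finset.range (2 ^ u), ‖Zh (τ (tm u j)) (ce c φ u j) (mm τ u j)
        (mm τ (u - 1) (j / 2)) ((2 : ℝ) ^ 0) ((2 : ℝ) ^ k • ξ)‖ ≤
          CL * (2 : ℝ) ^ (-(a : ℤ)) := by
      intro j hj
      have hj' := Finset.mem_range.1 hj
      apply hLM1 φ τ A₁ p c hG hGap hA hp u j (n + 1) a ((2 : ℝ) ^ k • ξ) hu hj'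
      · rw [hrat]; exact hel
      · rw [hkn, ← hx]
        refine le_trans (le_of_eq ?_) ha1
        congr 1; omega
    have hza : (2 : ℝ) ^ (-(a : ℤ)) = 1 / 2 ^ a := by rw [zpow_neg, zpow_natCast, one_div]
    calc am c φ τ u ((2 : ℝ) ^ k • ξ) ≤ ∑ j ∈ Finset.range (2 ^ u),
          CL * (2 : ℝ) ^ (-(a : ℤ)) := Finset.sum_le_sum h1
      _ = CL * (2 ^ u * (1 / 2 ^ a)) := by
          rw [Finset.sum_const, Finset.card_range, nsmul_eq_mul, hza]; push_cast; ring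
      _ ≤ CL * (2 ^ (n + 2 * u + 4) / x) := by
          apply mul_le_mul_of_nonneg_left _ (by linarith)
          rw [mul_one_div, div_le_div_iff₀ (by positivity) hx0]
          calc (2 : ℝ) ^ u * x ≤ 2 ^ u * 2 ^ (a + 1 + (n + u + 2)) :=
                mul_le_mul_of_nonneg_left ha2.le (by positivity)
            _ = 2 ^ (u + (a + 1 + (n + u + 2))) := by rw [pow_add 2 u]
            _ ≤ 2 ^ (n + 2 * u + 4 + a) := pow_le_pow_right₀ (by norm_num) (by omega)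
            _ = _ := by rw [pow_add]
      _ ≤ C2 * (2 ^ (n + 2 * u + 4) / x) := by
          apply mul_le_mul_of_nonneg_right _ (by positivity)
          linarith

end Pool.Agent.Helper91.EPL
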